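import Mathlib
import Pool.Agent.Lib.MP_3c6092_nt.Main

/-!
# Leech's questions hold for almost all larger bases

`a` is the larger and `b` the smaller base. Part 1: for all but `O(N ^ (2/3 + ε))` integers `a ≤ N`
there are no `b < a` and no exponents `m, n ≥ 3` with `a ^ m ≠ b ^ n` and
`|a ^ m - b ^ n| ≤ a - b`; even the number of pairs `(a, b)` is so small. Part 2: a stronger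
inequality, all exponents `m, n ≥ 1`.
-/

namespace Pool.Agent.Results.MP_3c6092_nt.AlmostAllBases

open Pool.Agent.Lib.MP3c6092

theorem result :
    (∀ ε : ℝ, 0 < ε → ∃ C : ℝ, ∀ N : ℕ, 1 ≤ N →
      (({p : ℕ × ℕ | 1 ≤ p.2 ∧ p.2 < p.1 ∧ p.1 ≤ N ∧ ∃ m n : ℕ, 3 ≤ m ∧ 3 ≤ n ∧
        p.1 ^ m ≠ p.2 ^ n ∧ |(p.1 : ℝ) ^ m - (p.2 : ℝ) ^ n| ≤ (p.1 : ℝ) - p.2}.ncard : ℕ) : ℝ) ≤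
        C * (N : ℝ) ^ ((2 : ℝ) / 3 + ε)) ∧
    (∀ k : ℕ, 3 ≤ k → ∀ ε : ℝ, 0 < ε → ∃ C : ℝ, ∀ N : ℕ, 1 ≤ N →
      (({p : ℕ × ℕ | 1 ≤ p.2 ∧ p.2 < p.1 ∧ p.1 ≤ N ∧ ∃ m n : ℕ, 1 ≤ m ∧ 1 ≤ n ∧
        p.1 ^ m ≠ p.2 ^ n ∧
        |(p.1 : ℝ) ^ m - (p.2 : ℝ) ^ n| < (p.1 : ℝ) ^ ((1 - 1 / (k : ℝ)) * m - 1)}.ncard : ℕ) : ℝ) ≤
        C * (N : ℝ) ^ (1 - 1 / (k : ℝ) + ε)) := by
  have hmain : ∀ k : ℕ, 3 ≤ k → ∀ ε : ℝ, 0 < ε → ∃ C : ℝ, ∀ N : ℕ, 1 ≤ N →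
      (({p : ℕ × ℕ | 1 ≤ p.2 ∧ p.2 < p.1 ∧ p.1 ≤ N ∧ ∃ m n : ℕ, 1 ≤ m ∧ 1 ≤ n ∧
        p.1 ^ m ≠ p.2 ^ n ∧
        |(p.1 : ℝ) ^ m - (p.2 : ℝ) ^ n| < (p.1 : ℝ) ^ ((1 - 1 / (k : ℝ)) * m - 1)}.ncard : ℕ) : ℝ) ≤
        C * (N : ℝ) ^ (1 - 1 / (k : ℝ) + ε) :=
    fun k hk ε hε => main k hk ε hε
  refine ⟨fun ε hε => ?_, hmain⟩
  obtain ⟨C, hC⟩ := hmain 3 le_rfl ε hε
  refine ⟨C, fun N hN => ?_⟩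
  have h := hC N hN
  have e : (1 : ℝ) - 1 / ((3 : ℕ) : ℝ) + ε = 2 / 3 + ε := by norm_num
  rw [e] at h
  refine le_trans ?_ h
  have hfin : {p : ℕ × ℕ | 1 ≤ p.2 ∧ p.2 < p.1 ∧ p.1 ≤ N ∧ ∃ m n : ℕ, 1 ≤ m ∧ 1 ≤ n ∧
        p.1 ^ m ≠ p.2 ^ n ∧
        |(p.1 : ℝ) ^ m - (p.2 : ℝ) ^ n| < (p.1 : ℝ) ^ ((1 - 1 / ((3 : ℕ) : ℝ)) * m - 1)}.Finite := by
    refine Set.Finite.subset ((Set.finite_Iic N).prod (Set.finite_Iic N)) ?_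
    rintro ⟨a, b⟩ ⟨_, h2, h3, _⟩
    simp only at h2 h3
    exact ⟨h3, by simp only [Set.mem_Iic]; omega⟩
  have hsub : {p : ℕ × ℕ | 1 ≤ p.2 ∧ p.2 < p.1 ∧ p.1 ≤ N ∧ ∃ m n : ℕ, 3 ≤ m ∧ 3 ≤ n ∧
        p.1 ^ m ≠ p.2 ^ n ∧ |(p.1 : ℝ) ^ m - (p.2 : ℝ) ^ n| ≤ (p.1 : ℝ) - p.2} ⊆
      {p : ℕ × ℕ | 1 ≤ p.2 ∧ p.2 < p.1 ∧ p.1 ≤ N ∧ ∃ m n : ℕ, 1 ≤ m ∧ 1 ≤ n ∧
        p.1 ^ m ≠ p.2 ^ n ∧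
        |(p.1 : ℝ) ^ m - (p.2 : ℝ) ^ n| < (p.1 : ℝ) ^ ((1 - 1 / ((3 : ℕ) : ℝ)) * m - 1)} := by
    rintro ⟨a, b⟩ ⟨h1, h2, h3, m, n, hm, hn, h4, h5⟩
    simp only at h1 h2 h3 h4 h5
    refine ⟨h1, h2, h3, m, n, by omega, by omega, h4, ?_⟩
    simp only
    have ha1 : (1 : ℝ) ≤ a := by exact_mod_cast (by omega : 1 ≤ a)
    have hb1 : (1 : ℝ) ≤ b := by exact_mod_cast h1
    have hm3 : (3 : ℝ) ≤ m := by exact_mod_cast hm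
    calc |(a : ℝ) ^ m - (b : ℝ) ^ n| ≤ (a : ℝ) - b := h5
      _ < a := by linarith
      _ = (a : ℝ) ^ (1 : ℝ) := (Real.rpow_one _).symm
      _ ≤ (a : ℝ) ^ ((1 - 1 / ((3 : ℕ) : ℝ)) * m - 1) := by
          apply Real.rpow_le_rpow_of_exponent_le ha1
          push_cast
          linarith
  exact_mod_cast Set.ncard_le_ncard hsub hfin

end Pool.Agent.Results.MP_3c6092_nt.AlmostAllBases
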