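import Pool.Agent.Lib.MP_3c6092_nt.LE.All

/-!
# MP_3c6092_nt: solutions of Leech's inequality with a large exponent
-/

set_option autoImplicit false

namespace Pool.Agent.Results.MP_3c6092_nt.LargeExponents

theorem result : ∀ δ ε : ℝ, 0 < δ → 0 < ε → ∃ (M : ℕ) (C : ℝ), ∀ N : ℕ, 1 ≤ N →
    ∃ S : Finset (ℕ × ℕ × ℕ × ℕ), (S.card : ℝ) ≤ C * (N : ℝ) ^ ε ∧
      ∀ a b m n : ℕ, 1 ≤ b → b < a → a ≤ N → 2 ≤ m → 1 ≤ n → (M ≤ m ∨ M ≤ n) → a ^ m ≠ b ^ n →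
        (|(a : ℤ) ^ m - (b : ℤ) ^ n| ≤ (a : ℤ) - b ∨
          (1 ≤ δ * m ∧ |(a : ℝ) ^ m - (b : ℝ) ^ n| < (a : ℝ) ^ ((1 - δ) * m))) →
        (a, b, m, n) ∈ S :=
  Pool.Agent.Lib.MP3c6092.LE.leech Pool.Agent.Lib.MP3c6092.LE.allQUAD

end Pool.Agent.Results.MP_3c6092_nt.LargeExponents
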