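import Pool.Agent.Lib.MP_3c6092_nt.SR.All

/-!
# MP_3c6092_nt: at most `C N ^ (1/2 + ε)` solutions of Leech's inequality with bases up to `N`
-/

set_option autoImplicit false

namespace Pool.Agent.Results.MP_3c6092_nt.SquareRoot

theorem result : ∀ ε : ℝ, 0 < ε → ∃ C : ℝ, ∀ N : ℕ, 1 ≤ N →
    ∃ S : Finset (ℕ × ℕ × ℕ × ℕ), (S.card : ℝ) ≤ C * (N : ℝ) ^ (1 / 2 + ε) ∧
      ∀ a b m n : ℕ, 1 ≤ b → b < a → a ≤ N → 3 ≤ m → 3 ≤ n → a ^ m ≠ b ^ n →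
        |(a : ℤ) ^ m - (b : ℤ) ^ n| ≤ (a : ℤ) - b → (a, b, m, n) ∈ S :=
  Pool.Agent.Lib.MP3c6092.SR.allFIN

end Pool.Agent.Results.MP_3c6092_nt.SquareRoot
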